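import Mathlib
import Pool.Agent.H20.Cov
import Pool.Agent.H20.Growth

/-!
Growth argument in an arbitrary abelian group (after helper20's argument for the integers): for a filtration
by balls whose covering numbers are eventually periodic in the radius, every element of the
next ball has a small multiple in a bounded sumset of the previous ball.
-/

set_option autoImplicit false

namespace Pool.Agent.H59.CR

open Finset Pool.Agent.H20

variable {G : Type*} [AddCommGroup G]

/-- The jump lemma. -/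
lemma jump {B B' : Set G} {K g u v : ℕ} (hneg : ∀ x ∈ B, -x ∈ B) (hsub : B ⊆ B')
    (hcov : Cov B' B K) (h0 : (0 : G) ∈ B) {x : G} (hxB : x ∈ B')
    (hx : ∀ j : ℕ, 0 < j → j < g → j • x ∉ sm B (2 * g + 2))
    (hv : Cov (sm B' (2 * g)) B' v) (hu : ∀ k, Cov (sm B g) B k → u ≤ k) :
    g * u ≤ v * K := by
  classical
  obtain ⟨Y, hY, hc⟩ := hv.trans hcov
  let Yi : ℕ → Finset G := fun i =>
    Y.filter fun y => ∃ d ∈ B, ∃ e ∈ sm B g, y + d = i • x + e
  have hYi : ∀ i ∈ range g, u ≤ (Yi i).card := by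
    intro i hi
    rw [Finset.mem_range] at hi
    refine hu _ ⟨(Yi i).image fun y => y - i • x, Finset.card_image_le, fun e he => ?_⟩
    have h1 : i • x + e ∈ sm B' (2 * g) := by
      have h2 : i • x ∈ sm B' i := nsmul_mem_sm' hxB i
      have h3 := sm_add h2 (sm_mono_left hsub g he)
      exact sm_mono_right (hsub h0) (by omega) h3
    obtain ⟨y, hy, f, hf, hyf⟩ := hc _ h1
    refine ⟨y - i • x, Finset.mem_image.mpr ⟨y, Finset.mem_filter.mpr ⟨hy, f, hf, e, he,
      hyf.symm⟩, rfl⟩, f, hf, ?_⟩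
    rw [sub_add_eq_add_sub, ← hyf]
    abel
  have hdisj' : ∀ i < g, ∀ j < i, Disjoint (Yi i) (Yi j) := by
    intro i hi j hj
    rw [Finset.disjoint_left]
    intro y hy1 hy2
    obtain ⟨-, d, hd, e, he, h1⟩ := Finset.mem_filter.mp hy1
    obtain ⟨-, d', hd', e', he', h2⟩ := Finset.mem_filter.mp hy2
    refine hx (i - j) (by omega) (by omega) ?_
    have h3 : (i - j) • x = (e' + -e) + (d + -d') := by
      have h4 : i • x = (i - j) • x + j • x := by
        rw [← add_nsmul, Nat.sub_add_cancel hj.le]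
      have h5 : (i - j) • x + j • x = y + d - e := by
        rw [← h4, h1]; abel
      have h6 : j • x = y + d' - e' := by rw [h2]; abel
      rw [h6] at h5
      have h7 : (i - j) • x = (y + d - e) - (y + d' - e') := by
        rw [← h5]; abel
      rw [h7]; abel
    rw [h3]
    have h8 : d + -d' ∈ sm B (1 + 1) := sm_add (mem_sm_one.mpr hd) (mem_sm_one.mpr (hneg _ hd'))
    have h9 := sm_add (sm_add he' (neg_mem_sm hneg he)) h8
    have e1 : g + g + (1 + 1) = 2 * g + 2 := by ring
    rwa [e1] at h9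
  have hdisj : ∀ i ∈ range g, ∀ j ∈ range g, i ≠ j → Disjoint (Yi i) (Yi j) := by
    intro i hi j hj hij
    rw [Finset.mem_range] at hi hj
    rcases Nat.lt_or_gt_of_ne hij with h | h
    · exact (hdisj' j hj i h).symm
    · exact hdisj' i hi j h
  calc g * u = ∑ _i ∈ range g, u := by rw [Finset.sum_const, Finset.card_range, smul_eq_mul]
    _ ≤ ∑ i ∈ range g, (Yi i).card := Finset.sum_le_sum hYi
    _ = ((range g).biUnion Yi).card := (Finset.card_biUnion hdisj).symm
    _ ≤ Y.card := by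
        apply Finset.card_le_card
        intro y hy
        obtain ⟨i, _, hi⟩ := Finset.mem_biUnion.mp hy
        exact (Finset.mem_filter.mp hi).1
    _ ≤ v * K := hY

/-- In a filtration with eventually periodic covering numbers, every element of the next ball
has a small positive multiple in a bounded sumset of the previous ball. -/
theorem small_multiple (D : ℕ → Set G) (K n₂ : ℕ)
    (hgood : ∀ n ≥ n₂, Good (D n) K) (hmono : ∀ n, D n ⊆ D (n + 1))
    (hcov : ∀ n ≥ n₂, Cov (D (n + 1)) (D n) K)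
    (hper : ∀ h v, ∃ p N₀, 0 < p ∧ ∀ n ≥ N₀,
      (Cov (sm (D n) h) (D n) v ↔ Cov (sm (D (n + p)) h) (D (n + p)) v)) :
    ∃ g m : ℕ, ∀ n ≥ m, ∀ x ∈ D (n + 1), ∃ j : ℕ, 0 < j ∧ j < g ∧
      j • x ∈ sm (D n) (2 * g + 2) := by
  classical
  by_contra hcon
  push Not at hcon
  have hK : 1 ≤ K := (hgood n₂ le_rfl).pos
  let N : ℕ → ℕ → ℕ := fun h n => sInf {k | Cov (sm (D n) h) (D n) k}
  have hbd : ∀ n ≥ n₂, ∀ h ≥ 1, Cov (sm (D n) h) (D n) ((6 * K * h + 1) ^ K) := by
    intro n hn h hh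
    have := cov_dil (hgood n hn) h 1 hh le_rfl
    rw [mul_one] at this
    refine Cov.mono ?_ le_rfl
    obtain ⟨Y, hY, hc⟩ := this
    refine ⟨Y, hY, fun e he => ?_⟩
    obtain ⟨y, hy, f, hf, h⟩ := hc e he
    exact ⟨y, hy, f, mem_sm_one.mp hf, h⟩
  have hmem : ∀ n ≥ n₂, ∀ h ≥ 1, Cov (sm (D n) h) (D n) (N h n) := fun n hn h hh =>
    Nat.sInf_mem (s := {k | Cov (sm (D n) h) (D n) k}) ⟨_, hbd n hn h hh⟩
  have hle : ∀ n h k, Cov (sm (D n) h) (D n) k → N h n ≤ k := fun n h k hk =>
    Nat.sInf_le hk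
  have hiff : ∀ n ≥ n₂, ∀ h ≥ 1, ∀ v, N h n ≤ v ↔ Cov (sm (D n) h) (D n) v :=
    fun n hn h hh v => ⟨fun hv => (hmem n hn h hh).mono hv, hle n h v⟩
  refine no_jump (fun h n => if h = 0 ∨ n < n₂ then 0 else N h n) K (CC K) n₂
    (fun h => (6 * K * h + 1) ^ K) hK (CC_pos K) ?_ ?_ ?_ ?_ ?_ ?_
  · intro n hn h hh
    have e : ¬ (h = 0 ∨ n < n₂) := by omega
    simp only [e, if_false]
    exact (hmem n hn h hh).pos ⟨0, zero_mem_sm (hgood n hn).zero h⟩
  · intro n hn h hh m hm
    have e : ¬ (h = 0 ∨ n < n₂) := by omega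
    have e' : ¬ (m = 0 ∨ n < n₂) := by omega
    have e'' : ¬ (h * m = 0 ∨ n < n₂) := by
      have := Nat.mul_pos hh hm
      omega
    simp only [e, e', e'', if_false]
    exact hle _ _ _ (cov_mul (hgood n hn) hh hm (hmem n hn h hh) (hmem n hn m hm))
  · intro n hn h hh
    have e : ¬ (h = 0 ∨ n < n₂) := by omega
    have e' : ¬ (h = 0 ∨ n + 1 < n₂) := by omega
    simp only [e, e', if_false]
    refine hle _ _ _ ?_
    have h1 := ((hmem (n + 1) (by omega) h hh).trans (hcov n hn)).mono_left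
      (sm_mono_left (hmono n) h)
    rwa [mul_comm] at h1
  · intro n hn h hh
    have e : ¬ (h = 0 ∨ n < n₂) := by omega
    simp only [e, if_false]
    exact hle _ _ _ (hbd n hn h hh)
  · intro h v
    rcases Nat.eq_zero_or_pos h with rfl | hh
    · exact ⟨1, 0, one_pos, fun n _ => by simp⟩
    · obtain ⟨p, N₀, hp, H⟩ := hper h v
      refine ⟨p, max N₀ n₂, hp, fun n hn => ?_⟩
      have e1 : n ≥ N₀ := (le_max_left _ _).trans hn
      have e2 : n ≥ n₂ := (le_max_right _ _).trans hn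
      have e : ¬ (h = 0 ∨ n < n₂) := by omega
      have e' : ¬ (h = 0 ∨ n + p < n₂) := by omega
      simp only [e, e', if_false]
      rw [hiff n e2 h hh v, hiff (n + p) (by omega) h hh v]
      exact H n e1
  · intro g hg m
    obtain ⟨n, hn, x, hx, hlt⟩ := hcon g (max m n₂)
    have e1 : n ≥ m := (le_max_left _ _).trans hn
    have e2 : n ≥ n₂ := (le_max_right _ _).trans hn
    refine ⟨n, e1, ?_⟩
    have e : ¬ (g = 0 ∨ n < n₂) := by omega
    have e' : ¬ (2 * g = 0 ∨ n + 1 < n₂) := by omega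
    simp only [e, e', if_false]
    have := jump (g := g) (hgood n e2).neg (hmono n) (hcov n e2) (hgood n e2).zero hx hlt
      (hmem (n + 1) (by omega) (2 * g) (by omega)) (fun k hk => hle n g k hk)
    rwa [mul_comm (N (2 * g) (n + 1))] at this

end Pool.Agent.H59.CR
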