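import Mathlib

/-!
Wild automorphisms of abelian groups with infinitely many elements of order `p`.
-/

set_option autoImplicit false

namespace Pool.Agent.H59.CR

universe u v

lemma free_seq_field (K : Type) [Field K] [Finite K] (V : Type u) [AddCommGroup V] [Module K V]
    [Infinite V] : ∃ v : ℕ → V, Function.Injective v ∧ ∀ (W : Type v) [AddCommGroup W]
      [Module K W] (w : ℕ → W), ∃ l : V →ₗ[K] W, ∀ k, l (v k) = w k := by
  classical
  let b := Module.Basis.ofVectorSpace K V
  have hinf : Infinite (Module.Basis.ofVectorSpaceIndex K V) := by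
    by_contra hcon
    rw [not_infinite_iff_finite] at hcon
    have h1 : Module.Finite K V := Module.Finite.of_basis b
    have h2 : Finite V := Module.finite_of_finite K
    exact not_finite V
  let e := Infinite.natEmbedding (Module.Basis.ofVectorSpaceIndex K V)
  refine ⟨fun k => b (e k), b.injective.comp e.injective, fun W _ _ w => ?_⟩
  refine ⟨b.constr K (Function.extend e w 0), fun k => ?_⟩
  rw [Module.Basis.constr_basis, e.injective.extend_apply]

/-- In an infinite elementary abelian `p`-group there is a sequence on which additive maps to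
elementary abelian groups can be prescribed. -/
lemma free_seq {p : ℕ} (hp : p.Prime) (V : Type u) [AddCommGroup V] (hV : ∀ x : V, p • x = 0)
    [Infinite V] : ∃ v : ℕ → V, Function.Injective v ∧ ∀ (W : Type v) [AddCommGroup W],
      (∀ x : W, p • x = 0) → ∀ w : ℕ → W, ∃ l : V →+ W, ∀ k, l (v k) = w k := by
  have : Fact p.Prime := ⟨hp⟩
  let _ : Module (ZMod p) V := AddCommGroup.zmodModule hV
  obtain ⟨v, hv, h⟩ := free_seq_field.{u, v} (ZMod p) V
  refine ⟨v, hv, fun W _ hW w => ?_⟩
  let _ : Module (ZMod p) W := AddCommGroup.zmodModule hW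
  obtain ⟨l, hl⟩ := h W w
  exact ⟨l.toAddMonoidHom, hl⟩

/-- An infinite elementary abelian `p`-group has an infinite subgroup of infinite index. -/
lemma exists_split {p : ℕ} (hp : p.Prime) (V : Type u) [AddCommGroup V]
    (hV : ∀ x : V, p • x = 0) [Infinite V] :
    ∃ S : AddSubgroup V, Infinite S ∧ Infinite (V ⧸ S) := by
  classical
  obtain ⟨v, hv, h⟩ := free_seq.{u, u} hp V hV
  obtain ⟨l, hl⟩ := h V hV fun k => if Even k then 0 else v k
  refine ⟨l.ker, ?_, ?_⟩
  · refine Infinite.of_injective (fun k : ℕ => (⟨v (2 * k), ?_⟩ : l.ker)) ?_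
    · rw [AddMonoidHom.mem_ker, hl, if_pos (even_two_mul k)]
    · intro a c hac
      have := hv (Subtype.ext_iff.mp hac)
      omega
  · refine Infinite.of_injective (fun k : ℕ => (v (2 * k + 1) : V ⧸ l.ker)) ?_
    intro a c hac
    have h1 := (QuotientAddGroup.eq (s := l.ker)).mp hac
    rw [AddMonoidHom.mem_ker, map_add, map_neg, hl, hl, if_neg (by simp), if_neg (by simp),
      neg_add_eq_zero] at h1
    have := hv h1
    omega

variable {G : Type u} [AddCommGroup G]

/-- elements killed by `p` -/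
def tor (G : Type u) [AddCommGroup G] (p : ℕ) : AddSubgroup G where
  carrier := {x | p • x = 0}
  zero_mem' := smul_zero _
  add_mem' := fun {a b} ha hb => by
    change p • (a + b) = 0
    rw [smul_add, show p • a = 0 from ha, show p • b = 0 from hb, add_zero]
  neg_mem' := fun {a} ha => by
    change p • (-a) = 0
    rw [smul_neg, show p • a = 0 from ha, neg_zero]

lemma mem_tor {p : ℕ} {x : G} : x ∈ tor G p ↔ p • x = 0 := Iff.rfl

/-- multiples of `p` -/
def mul (G : Type u) [AddCommGroup G] (p : ℕ) : AddSubgroup G where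
  carrier := {x | ∃ y, p • y = x}
  zero_mem' := ⟨0, smul_zero _⟩
  add_mem' := by
    rintro a b ⟨x, rfl⟩ ⟨y, rfl⟩
    exact ⟨x + y, smul_add _ _ _⟩
  neg_mem' := by
    rintro a ⟨x, rfl⟩
    exact ⟨-x, smul_neg _ _⟩

lemma mem_mul {p : ℕ} {x : G} : x ∈ mul G p ↔ ∃ y, p • y = x := Iff.rfl

/-- the case `S ≤ tor G p` infinite, `mul G p ⊔ S` of infinite index -/
lemma move_of_quot {p : ℕ} (hp : p.Prime) (S : AddSubgroup G) (hS : S ≤ tor G p)
    (hq : Infinite (G ⧸ (mul G p ⊔ S))) :
    ∃ g : ℕ → G, Function.Injective g ∧ ∀ w : ℕ → S, ∃ α : G ≃+ G, ∀ k, α (g k) = g k + w k := by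
  classical
  have hV : ∀ x : G ⧸ (mul G p ⊔ S), p • x = 0 := by
    intro x
    obtain ⟨y, rfl⟩ := QuotientAddGroup.mk_surjective x
    rw [← QuotientAddGroup.mk_nsmul, QuotientAddGroup.eq_zero_iff]
    exact AddSubgroup.mem_sup_left ⟨y, rfl⟩
  obtain ⟨v, hv, h⟩ := free_seq.{u, u} hp _ hV
  have hsur : ∀ k, ∃ y : G, (y : G ⧸ (mul G p ⊔ S)) = v k := fun k =>
    QuotientAddGroup.mk_surjective (v k)
  choose g hg using hsur
  refine ⟨g, fun a c hac => hv (by rw [← hg, ← hg, hac]), fun w => ?_⟩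
  obtain ⟨l, hl⟩ := h S (fun x => Subtype.ext (hS x.2)) w
  let f : G →+ G := S.subtype.comp (l.comp (QuotientAddGroup.mk' (mul G p ⊔ S)))
  have hfS : ∀ x, f x ∈ S := fun x => (l _).2
  have hfz : ∀ x ∈ S, f x = 0 := by
    intro x hx
    have : (QuotientAddGroup.mk' (mul G p ⊔ S)) x = 0 := by
      rw [QuotientAddGroup.mk'_apply, QuotientAddGroup.eq_zero_iff]
      exact AddSubgroup.mem_sup_right hx
    change ((l ((QuotientAddGroup.mk' (mul G p ⊔ S)) x) : S) : G) = 0
    rw [this, map_zero]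
    rfl
  refine ⟨{ toFun := fun x => x + f x
            invFun := fun x => x - f x
            left_inv := fun x => ?_
            right_inv := fun x => ?_
            map_add' := fun x y => ?_ }, fun k => ?_⟩
  · change x + f x - f (x + f x) = x
    rw [map_add, hfz _ (hfS x)]
    abel
  · change x - f x + f (x - f x) = x
    rw [map_sub, hfz _ (hfS x)]
    abel
  · rw [map_add]
    abel
  · change g k + f (g k) = g k + w k
    congr 1
    change ((l (g k : G ⧸ (mul G p ⊔ S)) : S) : G) = w k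
    rw [hg, hl]

/-- the case of an infinite quotient `G / pG` -/
lemma move_caseA {p : ℕ} (hp : p.Prime) (hT : Infinite (tor G p)) (hq : Infinite (G ⧸ mul G p)) :
    ∃ (g : ℕ → G) (S : AddSubgroup G), Function.Injective g ∧ Infinite S ∧
      ∀ w : ℕ → S, ∃ α : G ≃+ G, ∀ k, α (g k) = g k + w k := by
  classical
  suffices H : ∃ S : AddSubgroup G, S ≤ tor G p ∧ Infinite S ∧ Infinite (G ⧸ (mul G p ⊔ S)) by
    obtain ⟨S, hS, hSi, hSq⟩ := H
    obtain ⟨g, hg, h⟩ := move_of_quot hp S hS hSq
    exact ⟨g, S, hg, hSi, h⟩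
  by_cases hK : Infinite (mul G p ⊓ tor G p : AddSubgroup G)
  · refine ⟨mul G p ⊓ tor G p, inf_le_right, hK, ?_⟩
    rw [sup_inf_self]
    exact hq
  rw [not_infinite_iff_finite] at hK
  have hV : ∀ x : tor G p, p • x = 0 := fun x => Subtype.ext x.2
  obtain ⟨S', hS', hSq'⟩ := exists_split hp (tor G p) hV
  set S : AddSubgroup G := S'.map (tor G p).subtype with hS
  have hST : S ≤ tor G p := by
    rintro _ ⟨x, _, rfl⟩
    exact x.2
  have hSi : Infinite S := by
    refine Infinite.of_injective (fun x : S' => (⟨x.1.1, ⟨x.1, x.2, rfl⟩⟩ : S)) ?_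
    intro a b hab
    have h1 : (a.1.1 : G) = b.1.1 := congrArg (fun z : S => (z : G)) hab
    exact Subtype.ext (Subtype.ext h1)
  have hST0 : S.relIndex (tor G p) = 0 := by
    have h1 : S.addSubgroupOf (tor G p) = S' := by
      ext x
      rw [AddSubgroup.mem_addSubgroupOf]
      constructor
      · rintro ⟨y, hy, hxy⟩
        have : y = x := Subtype.ext hxy
        rwa [← this]
      · intro hx
        exact ⟨x, hx, rfl⟩
    rw [AddSubgroup.relIndex, h1]
    by_contra hcon
    have : S'.FiniteIndex := ⟨hcon⟩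
    have : Finite (tor G p ⧸ S') := inferInstance
    exact not_finite (tor G p ⧸ S')
  refine ⟨S, hST, hSi, ?_⟩
  by_contra hcon
  rw [not_infinite_iff_finite] at hcon
  have hne : (mul G p ⊔ S).index ≠ 0 := by
    have : (mul G p ⊔ S).FiniteIndex := AddSubgroup.finiteIndex_of_finite_quotient
    exact this.index_ne_zero
  have h1 : (mul G p ⊔ S).relIndex (tor G p) ≠ 0 := fun h =>
    hne (AddSubgroup.index_eq_zero_of_relIndex_eq_zero h)
  have h2 : (mul G p ⊔ S) ⊓ tor G p = S ⊔ (mul G p ⊓ tor G p) := by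
    rw [sup_comm, sup_inf_assoc_of_le _ hST]
  have h3 : (S ⊔ (mul G p ⊓ tor G p)).relIndex (tor G p) ≠ 0 := by
    rw [← h2, AddSubgroup.inf_relIndex_right]
    exact h1
  have h4 : S.relIndex (S ⊔ (mul G p ⊓ tor G p)) ≠ 0 := by
    rw [AddSubgroup.relIndex_sup_left]
    intro h0
    have h5 := AddSubgroup.relIndex_dvd_card S (mul G p ⊓ tor G p)
    rw [h0, zero_dvd_iff] at h5
    exact Nat.card_pos.ne' h5
  have h6 := AddSubgroup.relIndex_mul_relIndex S (S ⊔ (mul G p ⊓ tor G p)) (tor G p)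
    le_sup_left (sup_le hST inf_le_right)
  rw [hST0] at h6
  rcases Nat.mul_eq_zero.mp h6 with h | h
  · exact h4 h
  · exact h3 h

/-! ### The case of a finite quotient `G / pG` -/

/-- the elements of `p`-power order -/
def tinf (G : Type u) [AddCommGroup G] (p : ℕ) : AddSubgroup G where
  carrier := {x | ∃ n : ℕ, p ^ n • x = 0}
  zero_mem' := ⟨0, smul_zero _⟩
  add_mem' := by
    rintro a b ⟨n, hn⟩ ⟨m, hm⟩
    refine ⟨n + m, ?_⟩
    rw [smul_add, pow_add]
    nth_rewrite 1 [mul_comm]
    rw [← smul_smul, hn, smul_zero, ← smul_smul, hm, smul_zero, add_zero]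
  neg_mem' := by
    rintro a ⟨n, hn⟩
    exact ⟨n, by rw [smul_neg, hn, neg_zero]⟩

lemma mem_tinf {p : ℕ} {x : G} : x ∈ tinf G p ↔ ∃ n : ℕ, p ^ n • x = 0 := Iff.rfl

lemma tor_le_tinf (p : ℕ) : tor G p ≤ tinf G p := fun x hx => ⟨1, by rw [pow_one]; exact hx⟩

/-- the multiples `p ^ k x` of the elements of `p`-power order -/
def ptinf (G : Type u) [AddCommGroup G] (p k : ℕ) : AddSubgroup G where
  carrier := {x | ∃ y ∈ tinf G p, p ^ k • y = x}
  zero_mem' := ⟨0, (tinf G p).zero_mem, smul_zero _⟩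
  add_mem' := by
    rintro a b ⟨x, hx, rfl⟩ ⟨y, hy, rfl⟩
    exact ⟨x + y, (tinf G p).add_mem hx hy, smul_add _ _ _⟩
  neg_mem' := by
    rintro a ⟨x, hx, rfl⟩
    exact ⟨-x, (tinf G p).neg_mem hx, smul_neg _ _⟩

lemma mem_ptinf {p k : ℕ} {x : G} : x ∈ ptinf G p k ↔ ∃ y ∈ tinf G p, p ^ k • y = x := Iff.rfl

lemma ptinf_le_tinf (p k : ℕ) : ptinf G p k ≤ tinf G p := by
  rintro _ ⟨y, hy, rfl⟩
  exact (tinf G p).nsmul_mem hy _

/-- representatives -/
lemma exists_rep {p : ℕ} (hq : Finite (G ⧸ mul G p)) :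
    ∃ F : Set G, F.Finite ∧ (∀ t ∈ F, t ∈ tinf G p) ∧
      ∀ x ∈ tinf G p, ∃ t ∈ F, ∃ y ∈ tinf G p, x = t + p • y := by
  classical
  let r : G ⧸ mul G p → G := fun q =>
    if h : ∃ t ∈ tinf G p, (t : G ⧸ mul G p) = q then h.choose else 0
  refine ⟨Set.range r, Set.finite_range r, ?_, ?_⟩
  · rintro _ ⟨q, rfl⟩
    by_cases h : ∃ t ∈ tinf G p, (t : G ⧸ mul G p) = q
    · simp only [r, dif_pos h]
      exact h.choose_spec.1
    · simp only [r, dif_neg h]
      exact (tinf G p).zero_mem
  · intro x hx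
    have h : ∃ t ∈ tinf G p, (t : G ⧸ mul G p) = (x : G ⧸ mul G p) := ⟨x, hx, rfl⟩
    have hr : r x = h.choose := by simp only [r, dif_pos h]
    have h1 := h.choose_spec.1
    have h2 := h.choose_spec.2
    rw [← hr] at h1 h2
    have h3 := (QuotientAddGroup.eq (s := mul G p)).mp h2
    obtain ⟨y, hy⟩ := h3
    have hy' : p • y = -r x + x := hy
    refine ⟨r x, ⟨x, rfl⟩, y, ?_, ?_⟩
    · obtain ⟨n, hn⟩ := (tinf G p).add_mem ((tinf G p).neg_mem h1) hx
      refine ⟨n + 1, ?_⟩
      rw [pow_succ, ← smul_smul, hy', hn]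
    · rw [hy']
      abel

/-- A divisible `p`-subgroup with infinite socle. -/
lemma exists_divisible {p : ℕ} (hT : Infinite (tor G p)) (hq : Finite (G ⧸ mul G p)) :
    ∃ e : ℕ, (∀ x ∈ ptinf G p e, ∃ y ∈ ptinf G p e, p • y = x) ∧
      Infinite (ptinf G p e ⊓ tor G p : AddSubgroup G) := by
  classical
  obtain ⟨F, hF, hFt, hrep⟩ := exists_rep hq
  -- a common exponent of the representatives
  obtain ⟨e, he⟩ : ∃ e : ℕ, ∀ t ∈ F, p ^ e • t = 0 := by
    choose! f hf using hFt
    refine ⟨hF.toFinset.sup f, fun t ht => ?_⟩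
    have h1 : f t ≤ hF.toFinset.sup f := Finset.le_sup (f := f) (hF.mem_toFinset.mpr ht)
    obtain ⟨d, hd⟩ := Nat.exists_eq_add_of_le h1
    rw [hd, add_comm, pow_add, ← smul_smul, hf t ht, smul_zero]
  refine ⟨e, ?_, ?_⟩
  · rintro _ ⟨t, ht, rfl⟩
    obtain ⟨t₀, ht₀, y, hy, rfl⟩ := hrep t ht
    refine ⟨p ^ e • y, ⟨y, hy, rfl⟩, ?_⟩
    rw [smul_add, he t₀ ht₀, zero_add, smul_smul, smul_smul, mul_comm]
  · have key : ∀ k : ℕ, (↑(ptinf G p k ⊓ tor G p : AddSubgroup G) : Set G).Infinite := by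
      intro k
      induction k with
      | zero =>
        have h1 : (tor G p : Set G) ⊆ ↑(ptinf G p 0 ⊓ tor G p : AddSubgroup G) := by
          intro x hx
          exact ⟨⟨x, tor_le_tinf p hx, by rw [pow_zero, one_smul]⟩, hx⟩
        exact Set.Infinite.mono h1 (Set.infinite_coe_iff.mp hT)
      | succ k ih =>
        intro hfin
        apply ih
        have hsub : (↑(ptinf G p k ⊓ tor G p : AddSubgroup G) : Set G) ⊆
            ⋃ t ∈ F, {x | x ∈ tor G p ∧ x - p ^ k • t ∈ ptinf G p (k + 1)} := by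
          rintro x ⟨⟨y, hy, rfl⟩, hx⟩
          obtain ⟨t, ht, y', hy', rfl⟩ := hrep y hy
          simp only [Set.mem_iUnion]
          refine ⟨t, ht, hx, ⟨y', hy', ?_⟩⟩
          rw [smul_add, add_sub_cancel_left, smul_smul, pow_succ]
        refine Set.Finite.subset (Set.Finite.biUnion hF fun t _ => ?_) hsub
        rcases Set.eq_empty_or_nonempty
          {x | x ∈ tor G p ∧ x - p ^ k • t ∈ ptinf G p (k + 1)} with h | ⟨x₀, hx₀, hx₀'⟩
        · rw [h]
          exact Set.finite_empty
        · refine (hfin.image fun z => x₀ + z).subset ?_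
          rintro x ⟨hx, hx'⟩
          refine ⟨x - x₀, ⟨?_, (tor G p).sub_mem hx hx₀⟩, add_sub_cancel x₀ x⟩
          have h1 := (ptinf G p (k + 1)).sub_mem hx' hx₀'
          have h2 : x - p ^ k • t - (x₀ - p ^ k • t) = x - x₀ := by abel
          rwa [h2] at h1
    exact Set.infinite_coe_iff.mpr (key e)

/-- a `p`-divisible subgroup of elements of `p`-power order is divisible -/
lemma divisible_of {p : ℕ} (hp : p.Prime) (D : AddSubgroup G) (hD : D ≤ tinf G p)
    (hdiv : ∀ x ∈ D, ∃ y ∈ D, p • y = x) (n : ℕ) (hn : 0 < n) :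
    ∀ x ∈ D, ∃ y ∈ D, n • y = x := by
  induction n using Nat.strong_induction_on with
  | _ n ih =>
    intro x hx
    rcases Nat.lt_or_ge 1 n with h1 | h1
    · obtain ⟨q, hqp, k, rfl⟩ := Nat.exists_prime_and_dvd (by omega : n ≠ 1)
      have hk : 0 < k := Nat.pos_of_mul_pos_left hn
      have hlt : k < q * k := by
        have := hqp.two_le
        nlinarith
      obtain ⟨y, hy, rfl⟩ := ih k hlt hk x hx
      have hz : ∃ z ∈ D, q • z = y := by
        by_cases hqp' : q = p
        · rw [hqp']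
          exact hdiv y hy
        · obtain ⟨b, hb⟩ := hD hy
          have hcop : Nat.Coprime q (p ^ b) :=
            Nat.Coprime.pow_right b ((Nat.coprime_primes hqp hp).mpr hqp')
          have hbez := Nat.gcd_eq_gcd_ab q (p ^ b)
          rw [Nat.Coprime.gcd_eq_one hcop] at hbez
          refine ⟨Nat.gcdA q (p ^ b) • y, D.zsmul_mem hy _, ?_⟩
          have h2 : (((q : ℤ) * Nat.gcdA q (p ^ b) +
              ((p ^ b : ℕ) : ℤ) * Nat.gcdB q (p ^ b)) : ℤ) • y = y := by
            rw [← hbez]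
            simp
          rw [add_smul, mul_comm ((p ^ b : ℕ) : ℤ), mul_smul, mul_smul, natCast_zsmul,
            natCast_zsmul, hb, smul_zero, add_zero] at h2
          exact h2
      obtain ⟨z, hz, rfl⟩ := hz
      refine ⟨z, hz, ?_⟩
      rw [mul_comm, ← smul_smul]
    · have : n = 1 := by omega
      subst this
      exact ⟨x, hx, one_smul _ _⟩

/-- extension of homomorphisms into divisible subgroups -/
lemma exists_extend (D : AddSubgroup G)
    (hdiv : ∀ n : ℕ, 0 < n → ∀ x ∈ D, ∃ y ∈ D, n • y = x) (T : AddSubgroup G) (f : T →+ D) :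
    ∃ F : G →+ D, ∀ t : T, F t = f t := by
  have hsur : ∀ {n : ℤ}, n ≠ 0 → Function.Surjective (fun x : D => n • x) := by
    intro n hn x
    obtain ⟨y, hy, hyx⟩ := hdiv n.natAbs (Int.natAbs_pos.mpr hn) x.1 x.2
    rcases Int.natAbs_eq n with h | h
    · refine ⟨⟨y, hy⟩, Subtype.ext ?_⟩
      change n • y = x.1
      rw [h, natCast_zsmul, hyx]
    · refine ⟨-⟨y, hy⟩, Subtype.ext ?_⟩
      change n • (-y) = x.1
      rw [h, neg_smul, smul_neg, neg_neg, natCast_zsmul, hyx]
  let _ : DivisibleBy D ℤ := divisibleByOfSMulRightSurj D ℤ hsur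
  have hB : Module.Baer ℤ D := Module.Baer.of_divisible D
  obtain ⟨F, hF⟩ := hB.extension_property_addMonoidHom T.subtype T.subtype_injective f
  exact ⟨F, fun t => by rw [← hF]; rfl⟩

/-- `1 + f` is bijective if `f` maps into the divisible `p`-subgroup `D`, maps `tor G p` into
`S ≤ D ⊓ tor G p`, and vanishes on `S`. -/
lemma bijective_one_add {p : ℕ} (D : AddSubgroup G) (hD : D ≤ tinf G p)
    (hdiv : ∀ x ∈ D, ∃ y ∈ D, p • y = x) (S : AddSubgroup G) (hSD : S ≤ D)
    (f : G →+ G) (hfD : ∀ x, f x ∈ D)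
    (hfT : ∀ x ∈ tor G p, f x ∈ S) (hfS : ∀ x ∈ S, f x = 0) :
    Function.Bijective (fun x => x + f x) := by
  have hadd : ∀ x y, (x + y) + f (x + y) = (x + f x) + (y + f y) := fun x y => by
    rw [map_add]; abel
  have hsub : ∀ x y, (x - y) + f (x - y) = (x + f x) - (y + f y) := fun x y => by
    rw [map_sub]; abel
  have hsmul : ∀ (n : ℕ) (x : G), n • x + f (n • x) = n • (x + f x) := fun n x => by
    rw [map_nsmul, smul_add]
  have hker : ∀ (b : ℕ) (x : G), p ^ b • x = 0 → x + f x = 0 → x = 0 := by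
    intro b
    induction b with
    | zero =>
      intro x hx _
      rwa [pow_zero, one_smul] at hx
    | succ b ih =>
      intro x hx hfx
      refine ih x ?_ hfx
      have hT : p ^ b • x ∈ tor G p := by
        change p • (p ^ b • x) = 0
        rw [smul_smul, ← pow_succ', hx]
      have h1 : p ^ b • x + f (p ^ b • x) = 0 := by
        rw [hsmul, hfx, smul_zero]
      have h2 : p ^ b • x ∈ S := by
        have h3 : p ^ b • x = -f (p ^ b • x) := eq_neg_of_add_eq_zero_left h1
        rw [h3]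
        exact S.neg_mem (hfT _ hT)
      rwa [hfS _ h2, add_zero] at h1
  refine ⟨fun x y hxy => ?_, fun g => ?_⟩
  · have h1 : (x - y) + f (x - y) = 0 := by
      rw [hsub]
      exact sub_eq_zero_of_eq hxy
    have h2 : x - y ∈ tinf G p := by
      have h3 : x - y = -f (x - y) := eq_neg_of_add_eq_zero_left h1
      rw [h3]
      exact (tinf G p).neg_mem (hD (hfD _))
    obtain ⟨b, hb⟩ := h2
    exact sub_eq_zero.mp (hker b _ hb h1)
  · -- surjectivity onto `D`
    have hsur : ∀ (b : ℕ) (d : G), d ∈ D → p ^ b • d = 0 → ∃ x, x + f x = d := by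
      intro b
      induction b with
      | zero =>
        intro d _ hd
        refine ⟨0, ?_⟩
        rw [pow_zero, one_smul] at hd
        rw [hd, map_zero, add_zero]
      | succ b ih =>
        intro d hdD hd
        obtain ⟨x', hx'⟩ := ih (p • d) (D.nsmul_mem hdD p) (by
          rw [smul_smul, ← pow_succ, hd])
        have hx'D : x' ∈ D := by
          have h1 : x' = p • d - f x' := by rw [← hx']; abel
          rw [h1]
          exact D.sub_mem (D.nsmul_mem hdD p) (hfD _)
        obtain ⟨x, hxD, rfl⟩ := hdiv x' hx'D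
        obtain ⟨t, ht⟩ : ∃ t, t = d - (x + f x) := ⟨_, rfl⟩
        have htT : t ∈ tor G p := by
          change p • t = 0
          rw [ht, smul_sub, ← hsmul, hx', sub_self]
        have h2 : (t - f t) + f (t - f t) = t := by
          rw [map_sub, hfS _ (hfT t htT)]
          abel
        refine ⟨x + (t - f t), ?_⟩
        rw [hadd, h2, ht]
        abel
    obtain ⟨b, hb⟩ := hD (hfD g)
    obtain ⟨x, hx⟩ := hsur b (f g) (hfD g) hb
    refine ⟨g - x, ?_⟩
    change (g - x) + f (g - x) = g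
    rw [hsub, hx]
    abel

/-- the case of a finite quotient `G / pG` -/
lemma move_caseB {p : ℕ} (hp : p.Prime) (hT : Infinite (tor G p)) (hq : Finite (G ⧸ mul G p)) :
    ∃ (g : ℕ → G) (S : AddSubgroup G), Function.Injective g ∧ Infinite S ∧
      ∀ w : ℕ → S, ∃ α : G ≃+ G, ∀ k, α (g k) = g k + w k := by
  classical
  obtain ⟨e, hdiv, hinf⟩ := exists_divisible hT hq
  set D := ptinf G p e with hDdef
  have hDt : D ≤ tinf G p := ptinf_le_tinf p e
  obtain ⟨S', hS', hSq'⟩ := exists_split hp (D ⊓ tor G p : AddSubgroup G)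
    (fun x => Subtype.ext x.2.2)
  set S : AddSubgroup G := S'.map (D ⊓ tor G p).subtype with hS
  have hSle : S ≤ D ⊓ tor G p := by
    rintro _ ⟨x, _, rfl⟩
    exact x.2
  have hSi : Infinite S := by
    refine Infinite.of_injective (fun x : S' => (⟨x.1.1, ⟨x.1, x.2, rfl⟩⟩ : S)) ?_
    intro a b hab
    have h1 : (a.1.1 : G) = b.1.1 := congrArg (fun z : S => (z : G)) hab
    exact Subtype.ext (Subtype.ext h1)
  -- the quotient of `tor G p` by `S`
  set S₁ : AddSubgroup (tor G p) := S.addSubgroupOf (tor G p) with hS₁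
  have hSq : Infinite (tor G p ⧸ S₁) := by
    let i : (D ⊓ tor G p : AddSubgroup G) → tor G p := fun x => ⟨x.1, x.2.2⟩
    have hi : ∀ a b : (D ⊓ tor G p : AddSubgroup G), ((i a : tor G p ⧸ S₁) = i b) →
        ((a : (D ⊓ tor G p : AddSubgroup G) ⧸ S') = b) := by
      intro a b hab
      have h1 := (QuotientAddGroup.eq (s := S₁)).mp hab
      rw [QuotientAddGroup.eq]
      rw [hS₁, AddSubgroup.mem_addSubgroupOf] at h1
      obtain ⟨y, hy, hyx⟩ := h1
      have h2 : y = -a + b := Subtype.ext hyx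
      rwa [← h2]
    have hsel : ∀ q : (D ⊓ tor G p : AddSubgroup G) ⧸ S', ∃ a : (D ⊓ tor G p : AddSubgroup G),
        (a : (D ⊓ tor G p : AddSubgroup G) ⧸ S') = q := QuotientAddGroup.mk_surjective
    choose r hr using hsel
    refine Infinite.of_injective (fun q => (i (r q) : tor G p ⧸ S₁)) ?_
    intro q q' hqq
    rw [← hr q, ← hr q']
    exact hi _ _ hqq
  have hV : ∀ x : tor G p ⧸ S₁, p • x = 0 := by
    intro x
    obtain ⟨y, rfl⟩ := QuotientAddGroup.mk_surjective x
    rw [← QuotientAddGroup.mk_nsmul]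
    have : p • y = 0 := Subtype.ext y.2
    rw [this]
    rfl
  obtain ⟨v, hv, h⟩ := free_seq.{u, u} hp _ hV
  have hsur : ∀ k, ∃ y : tor G p, (y : tor G p ⧸ S₁) = v k := fun k =>
    QuotientAddGroup.mk_surjective (v k)
  choose g hg using hsur
  refine ⟨fun k => (g k : G), S, ?_, hSi, fun w => ?_⟩
  · intro a c hac
    have h1 : g a = g c := Subtype.ext hac
    exact hv (by rw [← hg, ← hg, h1])
  obtain ⟨l, hl⟩ := h S (fun x => Subtype.ext (hSle x.2).2) w
  let f₀ : tor G p →+ D :=
    { toFun := fun t => ⟨l (t : tor G p ⧸ S₁), (hSle (l (t : tor G p ⧸ S₁)).2).1⟩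
      map_zero' := by
        apply Subtype.ext
        change ((l ((0 : tor G p) : tor G p ⧸ S₁) : S) : G) = 0
        rw [QuotientAddGroup.mk_zero, map_zero]
        rfl
      map_add' := fun a b => by
        apply Subtype.ext
        change ((l ((a + b : tor G p) : tor G p ⧸ S₁) : S) : G) =
          ((l (a : tor G p ⧸ S₁) : S) : G) + ((l (b : tor G p ⧸ S₁) : S) : G)
        rw [QuotientAddGroup.mk_add, map_add]
        rfl }
  obtain ⟨F, hF⟩ := exists_extend D (fun n hn => divisible_of hp D hDt hdiv n hn) (tor G p) f₀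
  let f : G →+ G := D.subtype.comp F
  have hfD : ∀ x, f x ∈ D := fun x => (F x).2
  have hft : ∀ t : tor G p, f t = ((l (t : tor G p ⧸ S₁) : S) : G) := fun t => by
    change ((F t : D) : G) = _
    rw [hF]
    rfl
  have hfT : ∀ x ∈ tor G p, f x ∈ S := fun x hx => by
    rw [hft ⟨x, hx⟩]
    exact (l _).2
  have hfS : ∀ x ∈ S, f x = 0 := fun x hx => by
    have hxT : x ∈ tor G p := (hSle hx).2
    rw [hft ⟨x, hxT⟩]
    have h1 : ((⟨x, hxT⟩ : tor G p) : tor G p ⧸ S₁) = 0 := by
      rw [QuotientAddGroup.eq_zero_iff, hS₁, AddSubgroup.mem_addSubgroupOf]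
      exact hx
    rw [h1, map_zero]
    rfl
  have hbij := bijective_one_add D hDt hdiv S (fun x hx => (hSle hx).1) f hfD hfT hfS
  refine ⟨AddEquiv.ofBijective (AddMonoidHom.id G + f) hbij, fun k => ?_⟩
  change (g k : G) + f (g k) = (g k : G) + w k
  rw [hft, hg, hl]

/-- **Moving sequences.**  If `G` has infinitely many elements of order `p`, there are a sequence
`g` and an infinite subgroup `S` such that every perturbation `g k + w k`, `w k ∈ S`, is realised
by an automorphism. -/
theorem exists_moving {p : ℕ} (hp : p.Prime) (hT : {x : G | p • x = 0}.Infinite) :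
    ∃ (g : ℕ → G) (S : AddSubgroup G), Function.Injective g ∧ Infinite S ∧
      ∀ w : ℕ → S, ∃ α : G ≃+ G, ∀ k, α (g k) = g k + w k := by
  have hT' : Infinite (tor G p) := Set.infinite_coe_iff.mpr hT
  rcases finite_or_infinite (G ⧸ mul G p) with hq | hq
  · exact move_caseB hp hT' hq
  · exact move_caseA hp hT' hq

/-- **Wild automorphisms.** -/
theorem exists_wild {p : ℕ} (hp : p.Prime) (hT : {x : G | p • x = 0}.Infinite) (len : G → ℕ)
    (hlen : ∀ n, {x | len x ≤ n}.Finite) (F : ℕ → ℕ) :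
    ∃ (α : G ≃+ G) (n₀ : ℕ), ∀ n ≥ n₀, ∃ x, len x ≤ n ∧ F n ≤ len (α x) := by
  classical
  obtain ⟨g, S, hg, hS, hmove⟩ := exists_moving hp hT
  -- the bound to be beaten at `g k`
  let M : ℕ → ℕ := fun k => (Finset.range (len (g (k + 1)) + 1)).sup F
  have hchoose : ∀ k, ∃ w : S, M k ≤ len (g k + w) := by
    intro k
    by_contra hcon
    push Not at hcon
    have h1 : (Set.range fun w : S => g k + (w : G)) ⊆ {x | len x ≤ M k} := by
      rintro _ ⟨w, rfl⟩
      exact (hcon w).le
    have h2 : Function.Injective fun w : S => g k + (w : G) := fun a b hab =>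
      Subtype.ext (add_left_cancel hab)
    exact Set.infinite_range_of_injective h2 ((hlen (M k)).subset h1)
  choose w hw using hchoose
  obtain ⟨α, hα⟩ := hmove w
  refine ⟨α, len (g 0), fun n hn => ?_⟩
  -- the first `k` with `n < len (g (k + 1))`
  have hex : ∃ k, n < len (g (k + 1)) := by
    by_contra hcon
    push Not at hcon
    have h1 : (Set.range fun k => g (k + 1)) ⊆ {x | len x ≤ n} := by
      rintro _ ⟨k, rfl⟩
      exact hcon k
    have h2 : Function.Injective fun k => g (k + 1) := fun a b hab => by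
      have := hg hab
      omega
    exact Set.infinite_range_of_injective h2 ((hlen n).subset h1)
  set k := Nat.find hex with hk
  have hk1 : n < len (g (k + 1)) := Nat.find_spec hex
  have hk2 : len (g k) ≤ n := by
    rcases Nat.eq_zero_or_pos k with h0 | h0
    · rw [h0]
      exact hn
    · have h1 := Nat.find_min hex (m := k - 1) (by omega)
      rw [Nat.sub_add_cancel h0] at h1
      omega
  refine ⟨g k, hk2, ?_⟩
  rw [hα]
  refine le_trans ?_ (hw k)
  exact Finset.le_sup (f := F) (Finset.mem_range.mpr (by omega))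

end Pool.Agent.H59.CR
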